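import Mathlib
import Pool.Agent.Y576.CC.Group

/-!
# A countably compact group whose square is not countably compact, in ZFC
-/

namespace Pool.Agent.Results.MP_672973_lc.SquareNotCountablyCompact

open Set

/-- Countable compactness: every countable open cover has a finite subcover. -/
def CountablyCompact (X : Type) [TopologicalSpace X] : Prop :=
  ∀ U : ℕ → Set X, (∀ n, IsOpen (U n)) → (⋃ n, U n) = univ →
    ∃ t : Finset ℕ, (⋃ n ∈ t, U n) = univ

theorem countablyCompact_iff (X : Type) [TopologicalSpace X] :
    CountablyCompact X ↔ CountablyCompactSpace X := by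
  constructor
  · intro h
    refine ⟨isCountablyCompact_iff_countable_open_cover.2 fun U hU hcov => ?_⟩
    obtain ⟨t, ht⟩ := h U hU (univ_subset_iff.1 hcov)
    exact ⟨t, ht.ge⟩
  · intro h U hU hcov
    obtain ⟨t, ht⟩ := isCountablyCompact_iff_countable_open_cover.1 h.isCountablyCompact_univ U hU
      hcov.ge
    exact ⟨t, univ_subset_iff.1 ht⟩

/-- There is a countably compact Tikhonov topological group, even a Boolean one, whose square is
not countably compact. -/
theorem result :
    ∃ (G : Type) (_ : CommGroup G) (_ : TopologicalSpace G), IsTopologicalGroup G ∧ T35Space G ∧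
      (∀ x : G, x * x = 1) ∧ CountablyCompact G ∧ ¬ CountablyCompact (G × G) := by
  obtain ⟨G, h1, h2⟩ := Pool.Agent.Y576.CC.main
  refine ⟨Multiplicative G, inferInstance, inferInstance, inferInstance,
    inferInstanceAs (T35Space G), fun x => ?_, ?_, ?_⟩
  · apply Multiplicative.toAdd.injective
    apply Subtype.ext
    exact Pool.Agent.Y576.CC.add_self _
  · exact (countablyCompact_iff G).2 h1
  · exact fun h => h2 ((countablyCompact_iff (G × G)).1 h)

end Pool.Agent.Results.MP_672973_lc.SquareNotCountablyCompact
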